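import Pool.Agent.CUE.Pair
import Pool.Agent.Szego62.Heine

/-!
# The circular unitary ensemble at a fixed number of particles

`cue n` is the probability measure `(1/n!) prod |e^{i θ_j} - e^{i θ_k}|^2 prod dθ_j/(2π)` on
`Fin n → ℝ` (angles in `(0, 2π]`, reference measure `Szego62.mu`).
-/

set_option autoImplicit false

open Matrix Finset MeasureTheory ProbabilityTheory
open scoped ComplexConjugate

namespace Pool.Agent.CUE

variable {α : Type*} [MeasurableSpace α] {μ : Measure α} [IsProbabilityMeasure μ]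
variable {n : ℕ} {φ : Fin n → α → ℂ} {B : ℝ}

theorem one_perm {i : Fin n} {σ τ : Equiv.Perm (Fin n)} (h : ∀ k ∈ univ.erase i, σ k = τ k) :
    τ = σ := by
  have hk : ∀ k, k ≠ i → σ k = τ k := fun k h1 => h k (by simp [h1])
  have h2 : σ i = τ i := by
    by_contra hne
    obtain ⟨k, hk'⟩ := τ.surjective (σ i)
    have hki : k ≠ i := by
      rintro rfl
      exact hne hk'.symm
    rw [← hk k hki] at hk'
    exact hki (σ.injective hk')
  ext k
  by_cases hki : k = i
  · rw [hki, h2]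
  · rw [hk k hki]

theorem one_i (hφ : ONF μ φ B) {f : α → ℂ} (hfi : Integrable f μ) (i : Fin n) :
    ∫ x : Fin n → α, f (x i) * den φ x ∂(Measure.pi fun _ => μ) =
      ∑ σ : Equiv.Perm (Fin n), ∫ y, f y * (φ (σ i) y * conj (φ (σ i) y)) ∂μ := by
  have hc := Complex.continuous_conj.measurable
  set g : Equiv.Perm (Fin n) → Equiv.Perm (Fin n) → Fin n → α → ℂ := fun σ τ k y =>
    (if k = i then f y else 1) * (φ (σ k) y * conj (φ (τ k) y)) with hg
  have hgi : ∀ σ τ k, Integrable (g σ τ k) μ := by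
    intro σ τ k
    have h1 : Integrable (fun y => (if k = i then f y else (1 : ℂ))) μ := by
      by_cases h : k = i
      · simpa [h] using hfi
      · simpa [h] using integrable_const (1 : ℂ)
    refine h1.mul_bdd (c := B * B) (Measurable.aestronglyMeasurable
      ((hφ.meas _).mul (hc.comp (hφ.meas _)))) (Filter.Eventually.of_forall fun y => ?_)
    rw [norm_mul, Complex.norm_conj]
    exact mul_le_mul (hφ.bdd _ _) (hφ.bdd _ _) (norm_nonneg _) ((norm_nonneg _).trans (hφ.bdd (σ k) y))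
  have e1 : ∀ x : Fin n → α, f (x i) * den φ x = ∑ σ : Equiv.Perm (Fin n), ∑ τ : Equiv.Perm (Fin n),
      ((Equiv.Perm.sign σ : ℤ) : ℂ) * ((Equiv.Perm.sign τ : ℤ) : ℂ) * ∏ k, g σ τ k (x k) := by
    intro x
    rw [den_eq, Finset.mul_sum]
    refine sum_congr rfl fun σ _ => ?_
    rw [Finset.mul_sum]
    refine sum_congr rfl fun τ _ => ?_
    have e2 : ∏ k, g σ τ k (x k) = f (x i) * ∏ k, (φ (σ k) (x k) * conj (φ (τ k) (x k))) := by
      simp only [hg]
      rw [Finset.prod_mul_distrib, Finset.prod_ite_eq' univ i (fun k => f (x k)), if_pos (mem_univ i)]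
    rw [e2]
    ring
  have hint : ∀ σ τ : Equiv.Perm (Fin n), Integrable (fun x : Fin n → α =>
      ((Equiv.Perm.sign σ : ℤ) : ℂ) * ((Equiv.Perm.sign τ : ℤ) : ℂ) * ∏ k, g σ τ k (x k))
      (Measure.pi fun _ => μ) := fun σ τ =>
    (Integrable.fintype_prod (f := g σ τ) (hgi σ τ)).const_mul _
  simp only [e1]
  rw [integral_finset_sum _ fun σ _ => integrable_finset_sum _ fun τ _ => hint σ τ]
  refine sum_congr rfl fun σ _ => ?_
  rw [integral_finset_sum _ fun τ _ => hint σ τ]
  have hval : ∀ τ : Equiv.Perm (Fin n), ∫ x : Fin n → α, ((Equiv.Perm.sign σ : ℤ) : ℂ) *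
      ((Equiv.Perm.sign τ : ℤ) : ℂ) * ∏ k, g σ τ k (x k) ∂(Measure.pi fun _ => μ) =
      ((Equiv.Perm.sign σ : ℤ) : ℂ) * ((Equiv.Perm.sign τ : ℤ) : ℂ) *
        ((∫ y, f y * (φ (σ i) y * conj (φ (τ i) y)) ∂μ) *
          ∏ k ∈ univ.erase i, if σ k = τ k then 1 else 0) := by
    intro τ
    rw [integral_const_mul, integral_fintype_prod_eq_prod (f := g σ τ)]
    congr 1
    rw [← Finset.mul_prod_erase univ _ (mem_univ i)]
    congr 1
    · simp [hg]
    · refine Finset.prod_congr rfl fun k hk => ?_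
      have : k ≠ i := Finset.ne_of_mem_erase hk
      simp only [hg, if_neg this, one_mul]
      exact hφ.orth _ _
  simp only [hval]
  rw [Finset.sum_eq_single σ]
  · have e3 : ∏ k ∈ univ.erase i, (if σ k = σ k then (1 : ℂ) else 0) = 1 :=
      Finset.prod_eq_one fun k _ => if_pos rfl
    rw [e3, sign_sq]
    ring
  · intro τ _ hτ
    have : ∃ k ∈ univ.erase i, σ k ≠ τ k := by
      by_contra hcon
      push_neg at hcon
      exact hτ (one_perm hcon)
    obtain ⟨k, hk, hkne⟩ := this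
    rw [Finset.prod_eq_zero hk (if_neg hkne)]
    ring
  · intro h
    exact absurd (mem_univ _) h

/-! ### The circular ensemble -/

/-- the exponentials -/
noncomputable def ex (n : ℕ) (a : Fin n) (θ : ℝ) : ℂ := Complex.exp (θ * Complex.I) ^ (a : ℕ)

theorem ex_norm (n : ℕ) (a : Fin n) (θ : ℝ) : ‖ex n a θ‖ = 1 := by
  rw [ex, norm_pow, Complex.norm_exp_ofReal_mul_I, one_pow]

theorem ex_conj (n : ℕ) (a : Fin n) (θ : ℝ) : ex n a θ * conj (ex n a θ) = 1 := by
  rw [Complex.mul_conj, Complex.normSq_eq_norm_sq, ex_norm]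
  norm_num

theorem ex_onf (n : ℕ) : ONF Szego62.mu (ex n) 1 where
  meas := fun a => by
    unfold ex
    fun_prop
  bdd := fun a θ => (ex_norm n a θ).le
  orth := fun a b => by
    split_ifs with h
    · subst h
      simp only [ex_conj]
      simp
    · have e : ∀ θ : ℝ, ex n a θ * conj (ex n b θ) =
          Complex.exp ((((a : ℕ) : ℂ) - ((b : ℕ) : ℂ)) * Complex.I * θ) := by
        intro θ
        unfold ex
        rw [map_pow, ← Complex.exp_conj, ← Complex.exp_nat_mul, ← Complex.exp_nat_mul, ← Complex.exp_add]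
        congr 1
        simp
        ring
      simp only [e]
      have hne : (((a : ℕ) : ℂ) - ((b : ℕ) : ℂ)) * Complex.I ≠ 0 := by
        refine mul_ne_zero (sub_ne_zero.2 ?_) Complex.I_ne_zero
        intro h2
        exact h (Fin.ext (by exact_mod_cast h2))
      rw [Szego62.integral_mu, integral_exp_mul_complex hne]
      have e2 : Complex.exp ((((a : ℕ) : ℂ) - ((b : ℕ) : ℂ)) * Complex.I * ((2 * Real.pi : ℝ) : ℂ)) = 1 := by
        rw [Complex.exp_eq_one_iff]
        refine ⟨((a : ℕ) : ℤ) - ((b : ℕ) : ℤ), ?_⟩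
        push_cast
        ring
      rw [e2]
      simp

/-- the reproducing kernel -/
noncomputable def Kn (n : ℕ) (x y : ℝ) : ℂ := Ker (ex n) x y

theorem Kn_self (n : ℕ) (x : ℝ) : Kn n x x = n := by
  unfold Kn Ker
  simp only [ex_conj]
  simp

theorem Kn_mul (n : ℕ) (x y : ℝ) : Kn n x y * Kn n y x = ((‖Kn n x y‖ ^ 2 : ℝ) : ℂ) := by
  have e : Kn n y x = conj (Kn n x y) := by
    unfold Kn Ker
    rw [map_sum]
    refine sum_congr rfl fun a _ => ?_
    rw [map_mul, Complex.conj_conj, mul_comm]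
  rw [e, Complex.mul_conj, Complex.normSq_eq_norm_sq]

theorem Kn_meas (n : ℕ) : Measurable fun p : ℝ × ℝ => Kn n p.1 p.2 := by
  unfold Kn Ker ex
  refine Finset.measurable_sum _ fun a _ => ?_
  have hc := Complex.continuous_conj.measurable
  exact ((by fun_prop : Measurable fun p : ℝ × ℝ => Complex.exp (p.1 * Complex.I) ^ (a : ℕ))).mul
    (hc.comp (by fun_prop : Measurable fun p : ℝ × ℝ => Complex.exp (p.2 * Complex.I) ^ (a : ℕ)))

theorem Kn_le (n : ℕ) (x y : ℝ) : ‖Kn n x y‖ ≤ n := by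
  unfold Kn Ker
  refine (norm_sum_le _ _).trans ?_
  have : ∀ a : Fin n, ‖ex n a x * conj (ex n a y)‖ = 1 := fun a => by
    rw [norm_mul, Complex.norm_conj, ex_norm, ex_norm, one_mul]
  rw [Finset.sum_congr rfl fun a _ => this a]
  simp

theorem V_cont (n : ℕ) : Continuous (Szego62.V n) := by
  unfold Szego62.V
  fun_prop

theorem V_nonneg (n : ℕ) (θ : Fin n → ℝ) : 0 ≤ Szego62.V n θ := by
  unfold Szego62.V
  positivity

theorem den_V (n : ℕ) (θ : Fin n → ℝ) : den (ex n) θ = ((Szego62.V n θ : ℝ) : ℂ) := by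
  have h := Szego62.integrand_eq 0 n (fun _ => 0) θ
  have e0 : ∑ i, Szego62.F 0 (fun _ => 0) (θ i) = 0 := by simp [Szego62.F]
  rw [e0, Real.exp_zero, mul_one] at h
  rw [h, den]
  have e1 : ∀ z : ℂ, Szego62.ev (fun _ : Fin 0 => (0 : ℂ)) z = 1 := by
    intro z
    simp [Szego62.ev]
  simp only [e1, mul_one]
  rfl

/-- the density of the ensemble -/
noncomputable def dn (n : ℕ) (θ : Fin n → ℝ) : ℝ := Szego62.V n θ / n.factorial

theorem dn_nonneg (n : ℕ) (θ : Fin n → ℝ) : 0 ≤ dn n θ := div_nonneg (V_nonneg n θ) (Nat.cast_nonneg _)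

theorem dn_cont (n : ℕ) : Continuous (dn n) := by
  unfold dn
  exact (V_cont n).div_const _

/-- the circular ensemble -/
noncomputable def cue (n : ℕ) : Measure (Fin n → ℝ) :=
  (Measure.pi fun _ => Szego62.mu).withDensity fun θ => ENNReal.ofReal (dn n θ)

theorem integral_cue (n : ℕ) {E : Type*} [NormedAddCommGroup E] [NormedSpace ℝ E] (G : (Fin n → ℝ) → E) :
    ∫ θ, G θ ∂(cue n) = ∫ θ, dn n θ • G θ ∂(Measure.pi fun _ => Szego62.mu) := by
  unfold cue
  rw [integral_withDensity_eq_integral_toReal_smul (dn_cont n).measurable.ennreal_ofReal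
    (Filter.Eventually.of_forall fun θ => ENNReal.ofReal_lt_top)]
  refine integral_congr_ae (Filter.Eventually.of_forall fun θ => ?_)
  simp only
  rw [ENNReal.toReal_ofReal (dn_nonneg n θ)]

theorem V_le (n : ℕ) (θ : Fin n → ℝ) : Szego62.V n θ ≤ ∏ i : Fin n, ∏ _j ∈ Ioi i, (4 : ℝ) := by
  unfold Szego62.V
  refine Finset.prod_le_prod (fun i _ => by positivity) fun i _ =>
    Finset.prod_le_prod (fun j _ => by positivity) fun j _ => ?_
  have : ‖Complex.exp (θ i * Complex.I) - Complex.exp (θ j * Complex.I)‖ ≤ 2 := by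
    refine (norm_sub_le _ _).trans ?_
    rw [Complex.norm_exp_ofReal_mul_I, Complex.norm_exp_ofReal_mul_I]
    norm_num
  nlinarith [norm_nonneg (Complex.exp (θ i * Complex.I) - Complex.exp (θ j * Complex.I))]

theorem dn_le (n : ℕ) : ∃ C : ℝ, ∀ θ, ‖dn n θ‖ ≤ C := by
  refine ⟨(∏ i : Fin n, ∏ _j ∈ Ioi i, (4 : ℝ)) / n.factorial, fun θ => ?_⟩
  rw [Real.norm_of_nonneg (dn_nonneg n θ)]
  exact div_le_div_of_nonneg_right (V_le n θ) (Nat.cast_nonneg _)

theorem integrable_cue {n : ℕ} {E : Type*} [NormedAddCommGroup E] [NormedSpace ℝ E] {G : (Fin n → ℝ) → E}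
    (hG : Integrable G (Measure.pi fun _ => Szego62.mu)) : Integrable G (cue n) := by
  unfold cue
  rw [integrable_withDensity_iff_integrable_smul' (dn_cont n).measurable.ennreal_ofReal
    (Filter.Eventually.of_forall fun θ => ENNReal.ofReal_lt_top)]
  obtain ⟨C, hC⟩ := dn_le n
  have : Integrable (fun θ => dn n θ • G θ) (Measure.pi fun _ => Szego62.mu) :=
    hG.bdd_smul C (dn_cont n).measurable.aestronglyMeasurable (Filter.Eventually.of_forall hC)
  refine this.congr (Filter.Eventually.of_forall fun θ => ?_)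
  simp only
  rw [ENNReal.toReal_ofReal (dn_nonneg n θ)]

/-- **`Z = 1`** -/
theorem integral_dn (n : ℕ) : ∫ θ, dn n θ ∂(Measure.pi fun _ : Fin n => Szego62.mu) = 1 := by
  have h0 : ∫ x : Fin n → ℝ, den (ex n) x ∂(Measure.pi fun _ => Szego62.mu) = (n.factorial : ℂ) := by
    have := Szego62.andreief Szego62.mu (n := n) (ex n) (fun a θ => conj (ex n a θ)) (fun i j => by
      refine (integrable_const (1 : ℝ)).mono' ?_ ?_
      · exact (((ex_onf n).meas i).mul (Complex.continuous_conj.measurable.comp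
          ((ex_onf n).meas j))).aestronglyMeasurable
      · refine Filter.Eventually.of_forall fun θ => ?_
        rw [norm_mul, Complex.norm_conj, ex_norm, ex_norm, one_mul])
    have e : (Matrix.of fun i j => ∫ x, ex n i x * conj (ex n j x) ∂Szego62.mu) = 1 := by
      ext i j
      rw [Matrix.of_apply, (ex_onf n).orth, Matrix.one_apply]
    rw [e, Matrix.det_one, mul_one] at this
    exact this
  simp only [den_V] at h0
  rw [integral_complex_ofReal] at h0
  have h1 : ∫ x : Fin n → ℝ, Szego62.V n x ∂(Measure.pi fun _ => Szego62.mu) = (n.factorial : ℝ) := by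
    exact_mod_cast h0
  unfold dn
  rw [integral_div, h1]
  exact div_self (by exact_mod_cast n.factorial_ne_zero)

instance (n : ℕ) : IsProbabilityMeasure (cue n) := by
  constructor
  unfold cue
  rw [withDensity_apply _ MeasurableSet.univ, Measure.restrict_univ,
    ← ofReal_integral_eq_lintegral_ofReal]
  · rw [integral_dn, ENNReal.ofReal_one]
  · obtain ⟨C, hC⟩ := dn_le n
    exact (integrable_const C).mono' (dn_cont n).measurable.aestronglyMeasurable
      (Filter.Eventually.of_forall hC)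
  · exact Filter.Eventually.of_forall fun θ => dn_nonneg n θ

theorem integrable_one {n : ℕ} {f : ℝ → ℝ} (hfi : Integrable f Szego62.mu) (i : Fin n) :
    Integrable (fun θ : Fin n → ℝ => f (θ i)) (cue n) := by
  refine integrable_cue ?_
  have h := measurePreserving_eval (fun _ : Fin n => Szego62.mu) i
  exact (h.integrable_comp hfi.aestronglyMeasurable).2 hfi

theorem integrable_two {n : ℕ} {F : ℝ × ℝ → ℝ} (hFi : Integrable F (Szego62.mu.prod Szego62.mu))
    {i j : Fin n} (hij : i ≠ j) : Integrable (fun θ : Fin n → ℝ => F (θ i, θ j)) (cue n) := by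
  refine integrable_cue ?_
  have h4 := map_pair (μ := Szego62.mu) hij
  rw [← h4] at hFi
  exact hFi.comp_measurable (by fun_prop)

/-- **one point function** -/
theorem cue_one {n : ℕ} {f : ℝ → ℝ} (hfi : Integrable f Szego62.mu) (i : Fin n) :
    ∫ θ, f (θ i) ∂(cue n) = ∫ x, f x ∂Szego62.mu := by
  have h1 := one_i (ex_onf n) (f := fun x => (f x : ℂ)) hfi.ofReal i
  simp only [ex_conj, mul_one, den_V] at h1
  rw [Finset.sum_const, Finset.card_univ, Fintype.card_perm, Fintype.card_fin, nsmul_eq_mul,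
    integral_complex_ofReal] at h1
  have h2 : ∫ x : Fin n → ℝ, f (x i) * Szego62.V n x ∂(Measure.pi fun _ => Szego62.mu) =
      (n.factorial : ℝ) * ∫ x, f x ∂Szego62.mu := by
    have e : ∀ x : Fin n → ℝ, (f (x i) : ℂ) * ((Szego62.V n x : ℝ) : ℂ) =
        ((f (x i) * Szego62.V n x : ℝ) : ℂ) := fun x => by push_cast; ring
    simp only [e] at h1
    rw [integral_complex_ofReal] at h1
    exact_mod_cast h1
  rw [integral_cue]
  have e : ∀ θ : Fin n → ℝ, dn n θ • f (θ i) = (n.factorial : ℝ)⁻¹ * (f (θ i) * Szego62.V n θ) := by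
    intro θ
    rw [dn, smul_eq_mul, div_eq_inv_mul]
    ring
  simp only [e]
  rw [integral_const_mul, h2, ← mul_assoc, inv_mul_cancel₀ (by exact_mod_cast n.factorial_ne_zero),
    one_mul]

/-- **two point function** -/
theorem cue_two {n : ℕ} {F : ℝ × ℝ → ℝ} (hF : Measurable F)
    (hFi : Integrable F (Szego62.mu.prod Szego62.mu)) :
    ∑ i, ∑ j ∈ univ.erase i, ∫ θ, F (θ i, θ j) ∂(cue n) =
      ∫ p, F p * ((n : ℝ) ^ 2 - ‖Kn n p.1 p.2‖ ^ 2) ∂(Szego62.mu.prod Szego62.mu) := by
  have h1 := two_point (ex_onf n) (F := fun p => (F p : ℂ)) (Complex.measurable_ofReal.comp hF)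
    hFi.ofReal
  have e1 : ∀ p : ℝ × ℝ, (F p : ℂ) * (Ker (ex n) p.1 p.1 * Ker (ex n) p.2 p.2 -
      Ker (ex n) p.1 p.2 * Ker (ex n) p.2 p.1) = ((F p * ((n : ℝ) ^ 2 - ‖Kn n p.1 p.2‖ ^ 2) : ℝ) : ℂ) := by
    intro p
    have h2 := Kn_mul n p.1 p.2
    have h3 := Kn_self n p.1
    have h4 := Kn_self n p.2
    unfold Kn at h2 h3 h4
    rw [h2, h3, h4]
    unfold Kn
    push_cast
    ring
  have e2 : ∀ (i j : Fin n) (x : Fin n → ℝ), (F (x i, x j) : ℂ) * den (ex n) x =
      ((F (x i, x j) * Szego62.V n x : ℝ) : ℂ) := fun i j x => by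
    rw [den_V]; push_cast; ring
  simp only [e1, e2, integral_complex_ofReal] at h1
  have h2 : ∑ i, ∑ j ∈ univ.erase i, ∫ x : Fin n → ℝ, F (x i, x j) * Szego62.V n x
      ∂(Measure.pi fun _ => Szego62.mu) = (n.factorial : ℝ) *
      ∫ p, F p * ((n : ℝ) ^ 2 - ‖Kn n p.1 p.2‖ ^ 2) ∂(Szego62.mu.prod Szego62.mu) := by
    exact_mod_cast h1
  have e3 : ∀ i j : Fin n, ∫ θ, F (θ i, θ j) ∂(cue n) = (n.factorial : ℝ)⁻¹ *
      ∫ x : Fin n → ℝ, F (x i, x j) * Szego62.V n x ∂(Measure.pi fun _ => Szego62.mu) := by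
    intro i j
    rw [integral_cue, ← integral_const_mul]
    refine integral_congr_ae (Filter.Eventually.of_forall fun θ => ?_)
    simp only
    rw [dn, smul_eq_mul, div_eq_inv_mul]
    ring
  simp only [e3, ← Finset.mul_sum]
  rw [h2, ← mul_assoc, inv_mul_cancel₀ (by exact_mod_cast n.factorial_ne_zero), one_mul]

theorem Kn_int (n : ℕ) (x : ℝ) : ∫ y, ‖Kn n x y‖ ^ 2 ∂Szego62.mu = n := by
  have hc := Complex.continuous_conj.measurable
  have e1 : ∀ y : ℝ, ((‖Kn n x y‖ ^ 2 : ℝ) : ℂ) =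
      ∑ a, ∑ b, (ex n a x * conj (ex n b x)) * (ex n b y * conj (ex n a y)) := by
    intro y
    rw [← Kn_mul]
    unfold Kn Ker
    rw [Finset.sum_mul_sum]
    refine sum_congr rfl fun a _ => sum_congr rfl fun b _ => ?_
    ring
  have hi : ∀ a b : Fin n, Integrable (fun y => (ex n a x * conj (ex n b x)) *
      (ex n b y * conj (ex n a y))) Szego62.mu := by
    intro a b
    refine (integrable_const (1 : ℝ)).mono' ?_ ?_
    · exact (Measurable.const_mul (((ex_onf n).meas b).mul
        (hc.comp ((ex_onf n).meas a))) _).aestronglyMeasurable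
    · refine Filter.Eventually.of_forall fun y => ?_
      rw [norm_mul, norm_mul, norm_mul, Complex.norm_conj, Complex.norm_conj]
      simp only [ex_norm, one_mul, le_refl]
  have h1 : ∫ y, ((‖Kn n x y‖ ^ 2 : ℝ) : ℂ) ∂Szego62.mu = (n : ℂ) := by
    simp only [e1]
    rw [integral_finset_sum _ fun a _ => integrable_finset_sum _ fun b _ => hi a b]
    have : ∀ a : Fin n, ∫ y, ∑ b, (ex n a x * conj (ex n b x)) * (ex n b y * conj (ex n a y))
        ∂Szego62.mu = 1 := by
      intro a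
      rw [integral_finset_sum _ fun b _ => hi a b]
      rw [Finset.sum_eq_single a]
      · rw [integral_const_mul, (ex_onf n).orth, if_pos rfl, ex_conj, one_mul]
      · intro b _ hb
        rw [integral_const_mul, (ex_onf n).orth, if_neg hb, mul_zero]
      · intro h
        exact absurd (mem_univ _) h
    simp [this]
  rw [integral_complex_ofReal] at h1
  exact_mod_cast h1

/-! ### Energies -/

/-- the energy of the fluctuation with the kernel `κ` -/
noncomputable def En (n : ℕ) (κ : ℝ × ℝ → ℝ) (θ : Fin n → ℝ) : ℝ :=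
  ∑ i, ∑ j, κ (θ i, θ j) - (n : ℝ) * ∑ i, ∫ y, κ (θ i, y) ∂Szego62.mu -
    (n : ℝ) * ∑ i, ∫ y, κ (y, θ i) ∂Szego62.mu +
      (n : ℝ) ^ 2 * ∫ p, κ p ∂(Szego62.mu.prod Szego62.mu)

theorem En_eq (n : ℕ) (κ : ℝ × ℝ → ℝ) : En n κ = fun θ =>
    (∑ i, ∑ j ∈ univ.erase i, κ (θ i, θ j) + ∑ i, κ (θ i, θ i)) -
      (n : ℝ) * ∑ i, ∫ y, κ (θ i, y) ∂Szego62.mu -
    (n : ℝ) * ∑ i, ∫ y, κ (y, θ i) ∂Szego62.mu +
      (n : ℝ) ^ 2 * ∫ p, κ p ∂(Szego62.mu.prod Szego62.mu) := by
  funext θ
  unfold En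
  congr 3
  rw [← Finset.sum_add_distrib]
  refine sum_congr rfl fun i _ => ?_
  rw [Finset.sum_erase_add _ _ (mem_univ i)]

variable {κ : ℝ × ℝ → ℝ}

theorem En_integrable (n : ℕ) (hi : Integrable κ (Szego62.mu.prod Szego62.mu))
    (hd : Integrable (fun x => κ (x, x)) Szego62.mu) : Integrable (En n κ) (cue n) := by
  rw [En_eq]
  have h1 : Integrable (fun x => ∫ y, κ (x, y) ∂Szego62.mu) Szego62.mu := hi.integral_prod_left
  have h2 : Integrable (fun x => ∫ y, κ (y, x) ∂Szego62.mu) Szego62.mu := hi.integral_prod_right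
  refine Integrable.add (Integrable.sub (Integrable.sub (Integrable.add ?_ ?_) ?_) ?_)
    (integrable_const _)
  · exact integrable_finset_sum _ fun i _ => integrable_finset_sum _ fun j hj =>
      integrable_two hi (Finset.ne_of_mem_erase hj).symm
  · exact integrable_finset_sum _ fun i _ => integrable_one hd i
  · exact (integrable_finset_sum _ fun i _ => integrable_one h1 i).const_mul _
  · exact (integrable_finset_sum _ fun i _ => integrable_one h2 i).const_mul _

theorem int5 {Ω : Type*} [MeasurableSpace Ω] {P : Measure Ω} [IsProbabilityMeasure P] {A B C D : Ω → ℝ}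
    (hA : Integrable A P) (hB : Integrable B P) (hC : Integrable C P) (hD : Integrable D P) (e : ℝ) :
    ∫ ω, (A ω + B ω - C ω - D ω + e) ∂P =
      ∫ ω, A ω ∂P + ∫ ω, B ω ∂P - ∫ ω, C ω ∂P - ∫ ω, D ω ∂P + e := by
  have h1 : Integrable (fun ω => A ω + B ω) P := hA.add hB
  have h2 : Integrable (fun ω => A ω + B ω - C ω) P := h1.sub hC
  have h3 : Integrable (fun ω => A ω + B ω - C ω - D ω) P := h2.sub hD
  rw [integral_add h3 (integrable_const e), integral_sub h2 hD, integral_sub h1 hC,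
    integral_add hA hB, integral_const]
  simp

/-- **the mean energy** -/
theorem En_mean (n : ℕ) (hm : Measurable κ) (hi : Integrable κ (Szego62.mu.prod Szego62.mu))
    (hd : Integrable (fun x => κ (x, x)) Szego62.mu) :
    ∫ θ, En n κ θ ∂(cue n) = (n : ℝ) * ∫ x, κ (x, x) ∂Szego62.mu -
      ∫ p, κ p * ‖Kn n p.1 p.2‖ ^ 2 ∂(Szego62.mu.prod Szego62.mu) := by
  have h1 : Integrable (fun x => ∫ y, κ (x, y) ∂Szego62.mu) Szego62.mu := hi.integral_prod_left
  have h2 : Integrable (fun x => ∫ y, κ (y, x) ∂Szego62.mu) Szego62.mu := hi.integral_prod_right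
  have i1 : Integrable (fun θ : Fin n → ℝ => ∑ i, ∑ j ∈ univ.erase i, κ (θ i, θ j)) (cue n) :=
    integrable_finset_sum _ fun i _ => integrable_finset_sum _ fun j hj =>
      integrable_two hi (Finset.ne_of_mem_erase hj).symm
  have i2 : Integrable (fun θ : Fin n → ℝ => ∑ i, κ (θ i, θ i)) (cue n) :=
    integrable_finset_sum _ fun i _ => integrable_one hd i
  have i3 : Integrable (fun θ : Fin n → ℝ => (n : ℝ) * ∑ i, ∫ y, κ (θ i, y) ∂Szego62.mu) (cue n) :=
    (integrable_finset_sum _ fun i _ => integrable_one h1 i).const_mul _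
  have i4 : Integrable (fun θ : Fin n → ℝ => (n : ℝ) * ∑ i, ∫ y, κ (y, θ i) ∂Szego62.mu) (cue n) :=
    (integrable_finset_sum _ fun i _ => integrable_one h2 i).const_mul _
  rw [En_eq]
  have e0 := int5 i1 i2 i3 i4 ((n : ℝ) ^ 2 * ∫ p, κ p ∂(Szego62.mu.prod Szego62.mu))
  simp only at e0 ⊢
  rw [e0]
  have e1 : ∫ θ : Fin n → ℝ, ∑ i, ∑ j ∈ univ.erase i, κ (θ i, θ j) ∂(cue n) =
      ∫ p, κ p * ((n : ℝ) ^ 2 - ‖Kn n p.1 p.2‖ ^ 2) ∂(Szego62.mu.prod Szego62.mu) := by
    rw [← cue_two hm hi, integral_finset_sum _ fun i _ => integrable_finset_sum _ fun j hj =>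
      integrable_two hi (Finset.ne_of_mem_erase hj).symm]
    refine sum_congr rfl fun i _ => ?_
    rw [integral_finset_sum _ fun j hj => integrable_two hi (Finset.ne_of_mem_erase hj).symm]
  have e2 : ∫ θ : Fin n → ℝ, ∑ i, κ (θ i, θ i) ∂(cue n) = (n : ℝ) * ∫ x, κ (x, x) ∂Szego62.mu := by
    rw [integral_finset_sum _ fun i _ => integrable_one hd i]
    rw [sum_congr rfl fun i _ => cue_one hd i]
    simp
  have e3 : ∫ θ : Fin n → ℝ, (n : ℝ) * ∑ i, ∫ y, κ (θ i, y) ∂Szego62.mu ∂(cue n) =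
      (n : ℝ) ^ 2 * ∫ p, κ p ∂(Szego62.mu.prod Szego62.mu) := by
    rw [integral_const_mul, integral_finset_sum _ fun i _ => integrable_one h1 i]
    rw [sum_congr rfl fun i _ => cue_one h1 i, integral_prod _ hi]
    simp
    ring
  have e4 : ∫ θ : Fin n → ℝ, (n : ℝ) * ∑ i, ∫ y, κ (y, θ i) ∂Szego62.mu ∂(cue n) =
      (n : ℝ) ^ 2 * ∫ p, κ p ∂(Szego62.mu.prod Szego62.mu) := by
    rw [integral_const_mul, integral_finset_sum _ fun i _ => integrable_one h2 i]
    rw [sum_congr rfl fun i _ => cue_one h2 i, integral_prod_symm _ hi]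
    simp
    ring
  have hK : Integrable (fun p : ℝ × ℝ => κ p * ‖Kn n p.1 p.2‖ ^ 2) (Szego62.mu.prod Szego62.mu) := by
    refine hi.mul_bdd (c := (n : ℝ) ^ 2) ((Kn_meas n).norm.pow_const 2).aestronglyMeasurable
      (Filter.Eventually.of_forall fun p => ?_)
    rw [Real.norm_of_nonneg (by positivity)]
    exact pow_le_pow_left₀ (norm_nonneg _) (Kn_le n _ _) 2
  have e5 : ∫ p, κ p * ((n : ℝ) ^ 2 - ‖Kn n p.1 p.2‖ ^ 2) ∂(Szego62.mu.prod Szego62.mu) =
      (n : ℝ) ^ 2 * ∫ p, κ p ∂(Szego62.mu.prod Szego62.mu) -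
        ∫ p, κ p * ‖Kn n p.1 p.2‖ ^ 2 ∂(Szego62.mu.prod Szego62.mu) := by
    rw [← integral_const_mul, ← integral_sub (hi.const_mul _) hK]
    refine integral_congr_ae (Filter.Eventually.of_forall fun p => ?_)
    simp only
    ring
  rw [e1, e2, e3, e4, e5]
  ring

/-- Jensen's inequality for the exponential, no integrability of the exponential -/
theorem jensen {Ω : Type*} [MeasurableSpace Ω] {P : Measure Ω} [IsProbabilityMeasure P] {G : Ω → ℝ}
    (hG : Integrable G P) :
    ENNReal.ofReal (Real.exp (∫ ω, G ω ∂P)) ≤ ∫⁻ ω, ENNReal.ofReal (Real.exp (G ω)) ∂P := by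
  set c := ∫ ω, G ω ∂P with hc
  have h1 : ∀ ω, Real.exp c * (1 + (G ω - c)) ≤ Real.exp (G ω) := by
    intro ω
    have h2 := Real.add_one_le_exp (G ω - c)
    have h3 : Real.exp (G ω) = Real.exp c * Real.exp (G ω - c) := by
      rw [← Real.exp_add]; congr 1; ring
    rw [h3]
    exact mul_le_mul_of_nonneg_left (by linarith) (Real.exp_pos c).le
  have hi : Integrable (fun ω => Real.exp c * (1 + (G ω - c))) P :=
    ((integrable_const (1 : ℝ)).add (hG.sub (integrable_const c))).const_mul _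
  have h4 : ∫ ω, Real.exp c * (1 + (G ω - c)) ∂P = Real.exp c := by
    have h5 : Integrable (fun ω => G ω - c) P := hG.sub (integrable_const c)
    rw [integral_const_mul, integral_add (integrable_const _) h5,
      integral_sub hG (integrable_const c), integral_const, integral_const, ← hc]
    simp
  calc ENNReal.ofReal (Real.exp c) = ENNReal.ofReal (∫ ω, Real.exp c * (1 + (G ω - c)) ∂P) := by rw [h4]
    _ ≤ ENNReal.ofReal (∫ ω, max (Real.exp c * (1 + (G ω - c))) 0 ∂P) := by
        refine ENNReal.ofReal_le_ofReal (integral_mono hi (hi.sup (integrable_const 0)) fun ω => ?_)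
        exact le_max_left _ _
    _ = ∫⁻ ω, ENNReal.ofReal (max (Real.exp c * (1 + (G ω - c))) 0) ∂P :=
        ofReal_integral_eq_lintegral_ofReal (hi.sup (integrable_const 0))
          (Filter.Eventually.of_forall fun ω => le_max_right _ _)
    _ ≤ ∫⁻ ω, ENNReal.ofReal (Real.exp (G ω)) ∂P := by
        refine lintegral_mono fun ω => ENNReal.ofReal_le_ofReal ?_
        exact max_le (h1 ω) (Real.exp_pos _).le

/-! ### Two independent ensembles -/

theorem cross_mean {n m : ℕ} (hm : Measurable κ) (hi : Integrable κ (Szego62.mu.prod Szego62.mu)) :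
    Integrable (fun q : (Fin n → ℝ) × (Fin m → ℝ) => ∑ i, ∑ j, κ (q.1 i, q.2 j)) ((cue n).prod (cue m)) ∧
    ∫ q : (Fin n → ℝ) × (Fin m → ℝ), ∑ i, ∑ j, κ (q.1 i, q.2 j) ∂((cue n).prod (cue m)) =
      (n : ℝ) * m * ∫ p, κ p ∂(Szego62.mu.prod Szego62.mu) := by
  have key : ∀ (i : Fin n) (j : Fin m),
      ((cue n).prod (cue m)).map (fun q => (q.1 i, q.2 j)) = Szego62.mu.prod Szego62.mu := by
    intro i j
    have e1 : ∀ (k : ℕ) (i : Fin k), (cue k).map (fun θ => θ i) = Szego62.mu := by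
      intro k i
      ext s hs
      have h1 := cue_one (n := k) (f := s.indicator fun _ => (1 : ℝ)) ((integrable_const 1).indicator hs) i
      have h2 : ∀ θ : Fin k → ℝ, s.indicator (fun _ => (1 : ℝ)) (θ i) =
          ((fun θ : Fin k → ℝ => θ i) ⁻¹' s).indicator (fun _ => (1 : ℝ)) θ := fun θ => rfl
      simp only [h2] at h1
      rw [integral_indicator_const _ (measurable_pi_apply i hs), integral_indicator_const _ hs] at h1
      simp only [smul_eq_mul, mul_one, Measure.real] at h1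
      rw [Measure.map_apply (measurable_pi_apply i) hs]
      exact (ENNReal.toReal_eq_toReal_iff' (measure_ne_top _ _) (measure_ne_top _ _)).1 h1
    have e2 := Measure.map_prod_map (cue n) (cue m) (measurable_pi_apply i) (measurable_pi_apply j)
    rw [e1, e1] at e2
    rw [e2]
    rfl
  have hint : ∀ (i : Fin n) (j : Fin m),
      Integrable (fun q : (Fin n → ℝ) × (Fin m → ℝ) => κ (q.1 i, q.2 j)) ((cue n).prod (cue m)) := by
    intro i j
    have h := hi
    rw [← key i j] at h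
    exact h.comp_measurable (by fun_prop)
  refine ⟨integrable_finset_sum _ fun i _ => integrable_finset_sum _ fun j _ => hint i j, ?_⟩
  rw [integral_finset_sum _ fun i _ => integrable_finset_sum _ fun j _ => hint i j]
  have : ∀ i : Fin n, ∫ q : (Fin n → ℝ) × (Fin m → ℝ), ∑ j, κ (q.1 i, q.2 j) ∂((cue n).prod (cue m)) =
      (m : ℝ) * ∫ p, κ p ∂(Szego62.mu.prod Szego62.mu) := by
    intro i
    rw [integral_finset_sum _ fun j _ => hint i j]
    have : ∀ j : Fin m, ∫ q : (Fin n → ℝ) × (Fin m → ℝ), κ (q.1 i, q.2 j) ∂((cue n).prod (cue m)) =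
        ∫ p, κ p ∂(Szego62.mu.prod Szego62.mu) := by
      intro j
      conv_rhs => rw [← key i j]
      rw [integral_map (by fun_prop) hm.aestronglyMeasurable]
    simp [this]
  simp [this]
  ring

end Pool.Agent.CUE
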