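import Pool.Agent.Szego62.Andreief

/-!
# One and two point functions of determinantal ensembles

`φ a`, `a : Fin n`, is an orthonormal family of bounded measurable functions on a probability
space; the (unnormalised) density is `|det φ_a(x_j)|^2`.
-/

set_option autoImplicit false

open Matrix Finset MeasureTheory ProbabilityTheory
open scoped ComplexConjugate

namespace Pool.Agent.CUE

variable {α : Type*} [MeasurableSpace α] {μ : Measure α} [IsProbabilityMeasure μ]

section pair

variable {ι : Type*} [Fintype ι] [DecidableEq ι]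

theorem map_pair {i j : ι} (hij : i ≠ j) :
    (Measure.pi fun _ : ι => μ).map (fun x => (x i, x j)) = μ.prod μ := by
  have h1 : iIndepFun (fun (i : ι) (x : ι → α) => x i) (Measure.pi fun _ : ι => μ) :=
    iIndepFun_pi (X := fun _ x => x) fun _ => aemeasurable_id
  have h2 := (h1.indepFun hij).map_prod_eq_prod_map_map (measurable_pi_apply i).aemeasurable
    (measurable_pi_apply j).aemeasurable
  rw [h2]
  have e : ∀ k : ι, (Measure.pi fun _ : ι => μ).map (fun x => x k) = μ := fun k =>
    (measurePreserving_eval (fun _ : ι => μ) k).map_eq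
  rw [e, e]

theorem integral_pair {i j : ι} (hij : i ≠ j) {F : α × α → ℂ} (hF : Measurable F)
    {g : ι → α → ℂ} (hg : ∀ k, Measurable (g k)) :
    ∫ x : ι → α, F (x i, x j) * ∏ k, g k (x k) ∂(Measure.pi fun _ => μ) =
      (∫ p, F p * (g i p.1 * g j p.2) ∂(μ.prod μ)) *
        ∏ k ∈ (univ.erase i).erase j, ∫ x, g k x ∂μ := by
  set S : Finset ι := {i, j} with hS
  set T : Finset ι := (univ.erase i).erase j with hT
  have hST : Disjoint S T := by
    rw [Finset.disjoint_left]
    intro k hk hk'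
    simp only [hS, hT, mem_insert, mem_singleton, mem_erase, mem_univ, and_true] at hk hk'
    tauto
  have h1 : iIndepFun (fun (i : ι) (x : ι → α) => x i) (Measure.pi fun _ : ι => μ) :=
    iIndepFun_pi (X := fun _ x => x) fun _ => aemeasurable_id
  have h2 := h1.indepFun_finset S T hST fun k => measurable_pi_apply k
  have hi : i ∈ S := by simp [hS]
  have hj : j ∈ S := by simp [hS]
  have h3 := h2.integral_fun_comp_mul_comp (𝕜 := ℂ)
    (f := fun u : S → α => F (u ⟨i, hi⟩, u ⟨j, hj⟩) * (g i (u ⟨i, hi⟩) * g j (u ⟨j, hj⟩)))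
    (g := fun v : T → α => ∏ k : T, g k (v k))
    (measurable_pi_lambda _ fun k => measurable_pi_apply _).aemeasurable
    (measurable_pi_lambda _ fun k => measurable_pi_apply _).aemeasurable
    (Measurable.aestronglyMeasurable (by
      refine Measurable.mul (hF.comp (by fun_prop)) (Measurable.mul ((hg i).comp (by fun_prop))
        ((hg j).comp (by fun_prop)))))
    (Measurable.aestronglyMeasurable (by
      refine Finset.measurable_prod _ fun k _ => (hg k).comp (by fun_prop)))
  have e1 : ∀ x : ι → α, F (x i, x j) * ∏ k, g k (x k) =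
      (F (x i, x j) * (g i (x i) * g j (x j))) * ∏ k : T, g k (x k) := by
    intro x
    have hprod : ∏ k, g k (x k) = g i (x i) * (g j (x j) * ∏ k ∈ T, g k (x k)) := by
      have hj' : j ∈ univ.erase i := by simp [hij.symm]
      rw [hT, Finset.mul_prod_erase (univ.erase i) (fun k => g k (x k)) hj',
        Finset.mul_prod_erase univ (fun k => g k (x k)) (mem_univ i)]
    rw [hprod, ← Finset.prod_coe_sort T (fun k => g k (x k))]
    ring
  simp only [e1]
  rw [h3]
  congr 1
  · have h4 := map_pair (μ := μ) hij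
    rw [← h4, integral_map (by fun_prop)]
    refine (Measurable.aestronglyMeasurable ?_)
    exact hF.mul (((hg i).comp measurable_fst).mul ((hg j).comp measurable_snd))
  · have e2 : ∀ x : ι → α, ∏ k : T, g k (x k) = ∏ k, (if k ∈ T then g k (x k) else 1) := by
      intro x
      rw [Finset.prod_coe_sort T (fun k => g k (x k)), Finset.prod_ite_mem, Finset.univ_inter]
    simp only [e2]
    have e3 := integral_fintype_prod_eq_prod (𝕜 := ℂ) (μ := fun _ : ι => μ)
      (fun (k : ι) (y : α) => if k ∈ T then g k y else 1)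
    rw [e3]
    have e4 : ∀ k, ∫ y, (if k ∈ T then g k y else (1 : ℂ)) ∂μ =
        if k ∈ T then ∫ y, g k y ∂μ else 1 := by
      intro k
      split_ifs
      · rfl
      · simp
    simp only [e4]
    rw [Finset.prod_ite_mem, Finset.univ_inter]

theorem integrable_pair {i j : ι} (hij : i ≠ j) {F : α × α → ℂ} (hF : Integrable F (μ.prod μ))
    {g : ι → α → ℂ} (hg : ∀ k, Measurable (g k)) {B : ℝ} (hB : ∀ k x, ‖g k x‖ ≤ B) :
    Integrable (fun x : ι → α => F (x i, x j) * ∏ k, g k (x k)) (Measure.pi fun _ => μ) := by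
  have h4 := map_pair (μ := μ) hij
  have h5 : Integrable (fun x : ι → α => F (x i, x j)) (Measure.pi fun _ => μ) := by
    rw [← h4] at hF
    exact hF.comp_measurable (by fun_prop)
  refine h5.mul_bdd (c := B ^ Fintype.card ι) (Measurable.aestronglyMeasurable (by
    refine Finset.measurable_prod _ fun k _ => (hg k).comp (by fun_prop))) ?_
  refine Filter.Eventually.of_forall fun x => ?_
  rw [norm_prod]
  calc ∏ k, ‖g k (x k)‖ ≤ ∏ _k : ι, B := Finset.prod_le_prod (fun k _ => norm_nonneg _) fun k _ => hB k _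
    _ = B ^ Fintype.card ι := by rw [Finset.prod_const, Finset.card_univ]

end pair

/-- an orthonormal family -/
structure ONF {n : ℕ} (μ : Measure α) (φ : Fin n → α → ℂ) (B : ℝ) : Prop where
  meas : ∀ a, Measurable (φ a)
  bdd : ∀ a x, ‖φ a x‖ ≤ B
  orth : ∀ a b, ∫ x, φ a x * conj (φ b x) ∂μ = if a = b then 1 else 0

variable {n : ℕ} {φ : Fin n → α → ℂ} {B : ℝ}

/-- the kernel -/
noncomputable def Ker (φ : Fin n → α → ℂ) (x y : α) : ℂ := ∑ a, φ a x * conj (φ a y)

/-- the density -/
noncomputable def den (φ : Fin n → α → ℂ) (x : Fin n → α) : ℂ :=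
  (Matrix.of fun i j => φ i (x j)).det * (Matrix.of fun i j => conj (φ i (x j))).det

theorem den_eq (φ : Fin n → α → ℂ) (x : Fin n → α) : den φ x =
    ∑ σ : Equiv.Perm (Fin n), ∑ τ : Equiv.Perm (Fin n),
      ((Equiv.Perm.sign σ : ℤ) : ℂ) * ((Equiv.Perm.sign τ : ℤ) : ℂ) *
        ∏ j, (φ (σ j) (x j) * conj (φ (τ j) (x j))) := by
  rw [den, Szego62.det_mul_det_eq]
  rfl

theorem two_perm {i j : Fin n} (hij : i ≠ j) {σ τ : Equiv.Perm (Fin n)}
    (h : ∀ k ∈ (univ.erase i).erase j, σ k = τ k) : τ = σ ∨ τ = σ * Equiv.swap i j := by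
  have hk : ∀ k, k ≠ i → k ≠ j → σ k = τ k := fun k h1 h2 => h k (by simp [h1, h2])
  by_cases h1 : σ i = τ i
  · left
    have h2 : σ j = τ j := by
      by_contra hne
      obtain ⟨k, hk'⟩ := τ.surjective (σ j)
      have hki : k ≠ i := by
        rintro rfl
        rw [← h1] at hk'
        exact hij (σ.injective hk')
      have hkj : k ≠ j := by
        rintro rfl
        exact hne hk'.symm
      rw [← hk k hki hkj] at hk'
      exact hkj (σ.injective hk')
    ext k
    by_cases hki : k = i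
    · rw [hki, h1]
    · by_cases hkj : k = j
      · rw [hkj, h2]
      · rw [hk k hki hkj]
  · right
    have h2 : τ i = σ j := by
      obtain ⟨k, hk'⟩ := σ.surjective (τ i)
      have hki : k ≠ i := by
        rintro rfl
        exact h1 hk'
      have hkj : k = j := by
        by_contra hne
        rw [hk k hki hne] at hk'
        exact hki (τ.injective hk')
      rw [← hk', hkj]
    have h3 : τ j = σ i := by
      obtain ⟨k, hk'⟩ := σ.surjective (τ j)
      have hkj : k ≠ j := by
        rintro rfl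
        rw [← h2] at hk'
        exact hij (τ.injective hk')
      have hki : k = i := by
        by_contra hne
        rw [hk k hne hkj] at hk'
        exact hkj (τ.injective hk')
      rw [← hk', hki]
    ext k
    by_cases hki : k = i
    · rw [hki, h2]; simp
    · by_cases hkj : k = j
      · rw [hkj, h3]; simp
      · rw [← hk k hki hkj, Equiv.Perm.mul_apply, Equiv.swap_apply_of_ne_of_ne hki hkj]

theorem sign_sq (σ : Equiv.Perm (Fin n)) :
    ((Equiv.Perm.sign σ : ℤ) : ℂ) * ((Equiv.Perm.sign σ : ℤ) : ℂ) = 1 := by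
  rcases Int.units_eq_one_or (Equiv.Perm.sign σ) with h | h <;> simp [h]

/-- the matrix elements of `F` -/
noncomputable def elt (μ : Measure α) (φ : Fin n → α → ℂ) (F : α × α → ℂ) (a b c d : Fin n) : ℂ :=
  ∫ p, F p * (φ a p.1 * conj (φ b p.1) * (φ c p.2 * conj (φ d p.2))) ∂(μ.prod μ)

theorem pair_ij (hφ : ONF μ φ B) {F : α × α → ℂ} (hF : Measurable F) (hFi : Integrable F (μ.prod μ))
    {i j : Fin n} (hij : i ≠ j) :
    ∫ x : Fin n → α, F (x i, x j) * den φ x ∂(Measure.pi fun _ => μ) =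
      ∑ σ : Equiv.Perm (Fin n), (elt μ φ F (σ i) (σ i) (σ j) (σ j) - elt μ φ F (σ i) (σ j) (σ j) (σ i)) := by
  have hm : ∀ (σ τ : Equiv.Perm (Fin n)) (k : Fin n), Measurable fun y => φ (σ k) y * conj (φ (τ k) y) :=
    fun σ τ k => (hφ.meas _).mul (Complex.continuous_conj.measurable.comp (hφ.meas _))
  have hb : ∀ (σ τ : Equiv.Perm (Fin n)) (k : Fin n) (y : α),
      ‖φ (σ k) y * conj (φ (τ k) y)‖ ≤ B * B := fun σ τ k y => by
    rw [norm_mul, Complex.norm_conj]
    exact mul_le_mul (hφ.bdd _ _) (hφ.bdd _ _) (norm_nonneg _) ((norm_nonneg _).trans (hφ.bdd (σ k) y))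
  have hint : ∀ σ τ : Equiv.Perm (Fin n), Integrable (fun x : Fin n → α => F (x i, x j) *
      (((Equiv.Perm.sign σ : ℤ) : ℂ) * ((Equiv.Perm.sign τ : ℤ) : ℂ) *
        ∏ k, (φ (σ k) (x k) * conj (φ (τ k) (x k))))) (Measure.pi fun _ => μ) := by
    intro σ τ
    have := (integrable_pair (μ := μ) hij hFi (hm σ τ) (hb σ τ)).const_mul
      (((Equiv.Perm.sign σ : ℤ) : ℂ) * ((Equiv.Perm.sign τ : ℤ) : ℂ))
    refine this.congr (Filter.Eventually.of_forall fun x => ?_)
    simp only
    ring
  simp only [den_eq, Finset.mul_sum]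
  rw [integral_finset_sum _ fun σ _ => integrable_finset_sum _ fun τ _ => hint σ τ]
  refine sum_congr rfl fun σ _ => ?_
  rw [integral_finset_sum _ fun τ _ => hint σ τ]
  have hval : ∀ τ : Equiv.Perm (Fin n), ∫ x : Fin n → α, F (x i, x j) *
      (((Equiv.Perm.sign σ : ℤ) : ℂ) * ((Equiv.Perm.sign τ : ℤ) : ℂ) *
        ∏ k, (φ (σ k) (x k) * conj (φ (τ k) (x k)))) ∂(Measure.pi fun _ => μ) =
      ((Equiv.Perm.sign σ : ℤ) : ℂ) * ((Equiv.Perm.sign τ : ℤ) : ℂ) *
        (elt μ φ F (σ i) (τ i) (σ j) (τ j) * ∏ k ∈ (univ.erase i).erase j, if σ k = τ k then 1 else 0) := by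
    intro τ
    have e1 : ∀ x : Fin n → α, F (x i, x j) * (((Equiv.Perm.sign σ : ℤ) : ℂ) *
        ((Equiv.Perm.sign τ : ℤ) : ℂ) * ∏ k, (φ (σ k) (x k) * conj (φ (τ k) (x k)))) =
        (((Equiv.Perm.sign σ : ℤ) : ℂ) * ((Equiv.Perm.sign τ : ℤ) : ℂ)) *
          (F (x i, x j) * ∏ k, (φ (σ k) (x k) * conj (φ (τ k) (x k)))) := fun x => by ring
    simp only [e1]
    rw [integral_const_mul, integral_pair hij hF (hm σ τ)]
    congr 2
    exact Finset.prod_congr rfl fun k _ => hφ.orth _ _
  simp only [hval]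
  have hne : σ ≠ σ * Equiv.swap i j := by
    intro hh
    have := congrArg (fun ρ => ρ i) hh
    simp only [Equiv.Perm.mul_apply, Equiv.swap_apply_left] at this
    exact hij (σ.injective this)
  rw [Finset.sum_eq_add σ (σ * Equiv.swap i j) hne]
  · have e1 : ∏ k ∈ (univ.erase i).erase j, (if σ k = σ k then (1 : ℂ) else 0) = 1 :=
      Finset.prod_eq_one fun k _ => if_pos rfl
    have e2 : ∏ k ∈ (univ.erase i).erase j, (if σ k = (σ * Equiv.swap i j) k then (1 : ℂ) else 0) = 1 := by
      refine Finset.prod_eq_one fun k hk => if_pos ?_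
      simp only [mem_erase, mem_univ, and_true] at hk
      rw [Equiv.Perm.mul_apply, Equiv.swap_apply_of_ne_of_ne hk.2 hk.1]
    rw [e1, e2, Equiv.Perm.sign_mul, Equiv.Perm.sign_swap hij]
    simp only [Equiv.Perm.mul_apply, Equiv.swap_apply_left, Equiv.swap_apply_right]
    have h1 := sign_sq σ
    push_cast
    linear_combination (elt μ φ F (σ i) (σ i) (σ j) (σ j) - elt μ φ F (σ i) (σ j) (σ j) (σ i)) * h1
  · intro τ _ hτ
    have : ∃ k ∈ (univ.erase i).erase j, σ k ≠ τ k := by
      by_contra hcon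
      push_neg at hcon
      rcases two_perm hij hcon with h | h
      · exact hτ.1 h
      · exact hτ.2 h
    obtain ⟨k, hk, hkne⟩ := this
    rw [Finset.prod_eq_zero hk (if_neg hkne)]
    ring
  · intro h
    exact absurd (mem_univ _) h
  · intro h
    exact absurd (mem_univ _) h

theorem elt_integrable (hφ : ONF μ φ B) {F : α × α → ℂ} (hFi : Integrable F (μ.prod μ))
    (a b c d : Fin n) :
    Integrable (fun p : α × α => F p * (φ a p.1 * conj (φ b p.1) * (φ c p.2 * conj (φ d p.2))))
      (μ.prod μ) := by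
  have hc := Complex.continuous_conj.measurable
  refine hFi.mul_bdd (c := B * B * (B * B)) (Measurable.aestronglyMeasurable ?_) ?_
  · exact (((hφ.meas a).comp measurable_fst).mul (hc.comp ((hφ.meas b).comp measurable_fst))).mul
      (((hφ.meas c).comp measurable_snd).mul (hc.comp ((hφ.meas d).comp measurable_snd)))
  · refine Filter.Eventually.of_forall fun p => ?_
    rw [norm_mul, norm_mul, norm_mul, Complex.norm_conj, Complex.norm_conj]
    have hB : 0 ≤ B := (norm_nonneg _).trans (hφ.bdd a p.1)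
    exact mul_le_mul (mul_le_mul (hφ.bdd _ _) (hφ.bdd _ _) (norm_nonneg _) hB)
      (mul_le_mul (hφ.bdd _ _) (hφ.bdd _ _) (norm_nonneg _) hB) (by positivity) (by positivity)

/-- **two point function** -/
theorem two_point (hφ : ONF μ φ B) {F : α × α → ℂ} (hF : Measurable F)
    (hFi : Integrable F (μ.prod μ)) :
    ∑ i, ∑ j ∈ univ.erase i, ∫ x : Fin n → α, F (x i, x j) * den φ x ∂(Measure.pi fun _ => μ) =
      (n.factorial : ℂ) * ∫ p, F p * (Ker φ p.1 p.1 * Ker φ p.2 p.2 - Ker φ p.1 p.2 * Ker φ p.2 p.1)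
        ∂(μ.prod μ) := by
  set G : Fin n → Fin n → ℂ := fun a b => elt μ φ F a a b b - elt μ φ F a b b a with hG
  have h1 : ∑ i, ∑ j ∈ univ.erase i, ∫ x : Fin n → α, F (x i, x j) * den φ x ∂(Measure.pi fun _ => μ) =
      ∑ i, ∑ j, ∑ σ : Equiv.Perm (Fin n), G (σ i) (σ j) := by
    refine sum_congr rfl fun i _ => ?_
    rw [← Finset.add_sum_erase univ (fun j => ∑ σ : Equiv.Perm (Fin n), G (σ i) (σ j)) (mem_univ i)]
    have e0 : ∑ σ : Equiv.Perm (Fin n), G (σ i) (σ i) = 0 :=
      Finset.sum_eq_zero fun σ _ => by simp [hG]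
    rw [e0, zero_add]
    exact sum_congr rfl fun j hj => pair_ij hφ hF hFi (Finset.ne_of_mem_erase hj).symm
  have h2 : ∑ i, ∑ j, ∑ σ : Equiv.Perm (Fin n), G (σ i) (σ j) = (n.factorial : ℂ) * ∑ a, ∑ b, G a b := by
    have e1 : ∑ i, ∑ j, ∑ σ : Equiv.Perm (Fin n), G (σ i) (σ j) =
        ∑ σ : Equiv.Perm (Fin n), ∑ i, ∑ j, G (σ i) (σ j) := by
      have : ∀ i, ∑ j, ∑ σ : Equiv.Perm (Fin n), G (σ i) (σ j) =
          ∑ σ : Equiv.Perm (Fin n), ∑ j, G (σ i) (σ j) := fun i => Finset.sum_comm
      simp only [this]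
      exact Finset.sum_comm
    rw [e1]
    have e2 : ∀ σ : Equiv.Perm (Fin n), ∑ i, ∑ j, G (σ i) (σ j) = ∑ a, ∑ b, G a b := by
      intro σ
      rw [← Equiv.sum_comp σ (fun a => ∑ b, G a b)]
      exact sum_congr rfl fun i _ => Equiv.sum_comp σ (fun b => G (σ i) b)
    simp only [e2, Finset.sum_const, Finset.card_univ, Fintype.card_perm, Fintype.card_fin,
      nsmul_eq_mul]
  rw [h1, h2]
  congr 1
  have h3 : ∀ p : α × α, F p * (Ker φ p.1 p.1 * Ker φ p.2 p.2 - Ker φ p.1 p.2 * Ker φ p.2 p.1) =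
      ∑ a, ∑ b, (F p * (φ a p.1 * conj (φ a p.1) * (φ b p.2 * conj (φ b p.2))) -
        F p * (φ a p.1 * conj (φ b p.1) * (φ b p.2 * conj (φ a p.2)))) := by
    intro p
    simp only [Finset.sum_sub_distrib]
    rw [mul_sub, Ker, Ker, Ker, Ker, Finset.sum_mul_sum, Finset.sum_mul_sum, Finset.mul_sum,
      Finset.mul_sum]
    congr 1
    · refine sum_congr rfl fun a _ => ?_
      rw [Finset.mul_sum]
    · refine sum_congr rfl fun a _ => ?_
      rw [Finset.mul_sum]
      refine sum_congr rfl fun b _ => ?_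
      ring
  simp only [h3]
  have hint : ∀ a b : Fin n, Integrable (fun p : α × α =>
      F p * (φ a p.1 * conj (φ a p.1) * (φ b p.2 * conj (φ b p.2))) -
        F p * (φ a p.1 * conj (φ b p.1) * (φ b p.2 * conj (φ a p.2)))) (μ.prod μ) := fun a b =>
    (elt_integrable hφ hFi a a b b).sub (elt_integrable hφ hFi a b b a)
  rw [integral_finset_sum _ fun a _ => integrable_finset_sum _ fun b _ => hint a b]
  refine sum_congr rfl fun a _ => ?_
  rw [integral_finset_sum _ fun b _ => hint a b]
  refine sum_congr rfl fun b _ => ?_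
  rw [integral_sub (elt_integrable hφ hFi a a b b) (elt_integrable hφ hFi a b b a)]
  rfl

end Pool.Agent.CUE
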